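import Pool.Agent.H86.KZ.S
import Pool.Agent.H45.EG4.Main
import Pool.Agent.H45.EG4.STA
import Pool.Agent.H45.EGH.GPM
import Pool.Agent.H52.EG3.BAM

/-!
# KZ, row FIN
-/

set_option autoImplicit false

namespace Pool.KZ

open MvPolynomial Pool.EGH
open Pool.EG3 (MC t_rgm)
open Pool.EG4 (dl so ofFn_reverse gp_fin)

variable {K : Type} [Field K] {N : ℕ}

/-- The dimension of the image of an ideal. -/
theorem im_dim {Q I : Ideal (PR K N)} (hle : Q ≤ I) (i : ℕ) :
    Module.finrank K ↥(im Q I i) + hf I i = hf Q i := by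
  have hfin : Module.Finite K ↥(fm K N i) := t_FIN K N i
  have hk : LinearMap.ker (Ideal.Quotient.mkₐ K Q).toLinearMap = Q.restrictScalars K := by
    ext z
    exact Ideal.Quotient.eq_zero_iff_mem
  have hIf : Module.Finite K ↥(I.restrictScalars K ⊓ fm K N i) :=
    Submodule.finiteDimensional_of_le inf_le_right
  have h2 := LinearMap.finrank_range_add_finrank_ker
    ((Ideal.Quotient.mkₐ K Q).toLinearMap.domRestrict (I.restrictScalars K ⊓ fm K N i))
  rw [LinearMap.range_domRestrict, LinearMap.ker_domRestrict, hk] at h2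
  have h3 : Module.finrank K ↥((Q.restrictScalars K).comap
      (I.restrictScalars K ⊓ fm K N i).subtype) =
      Module.finrank K ↥(Q.restrictScalars K ⊓ fm K N i) := by
    rw [← Submodule.finrank_map_subtype_eq, Submodule.map_comap_subtype]
    have h4 : (I.restrictScalars K ⊓ fm K N i) ⊓ Q.restrictScalars K =
        Q.restrictScalars K ⊓ fm K N i := by
      ext z
      constructor
      · rintro ⟨⟨_, hz2⟩, hz3⟩
        exact ⟨hz3, hz2⟩
      · rintro ⟨hz1, hz2⟩
        exact ⟨⟨hle hz1, hz2⟩, hz1⟩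
    rw [h4]
  rw [h3] at h2
  change Module.finrank K ↥(im Q I i) + _ = _ at h2
  have h5 : Module.finrank K ↥(I.restrictScalars K ⊓ fm K N i) ≤
      Module.finrank K ↥(fm K N i) := Submodule.finrank_mono inf_le_right
  have h6 : Module.finrank K ↥(Q.restrictScalars K ⊓ fm K N i) ≤
      Module.finrank K ↥(fm K N i) := Submodule.finrank_mono inf_le_right
  unfold hf
  omega

/-- A subspace of given dimension. -/
theorem sub_dim {V : Type} [AddCommGroup V] [Module K V] (W : Submodule K V) {k : ℕ}
    (hk : k ≤ Module.finrank K W) : ∃ W' ≤ W, Module.finrank K W' = k := by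
  obtain ⟨f, hf⟩ := exists_linearIndependent_of_le_finrank hk
  refine ⟨(Submodule.span K (Set.range f)).map W.subtype, ?_, ?_⟩
  · exact Submodule.map_subtype_le W _
  · rw [Submodule.finrank_map_subtype_eq, finrank_span_eq_card hf, Fintype.card_fin]

theorem hg_ofList {l : List (PR K N)} (h : ∀ f ∈ l, ∃ d, f ∈ fm K N d) :
    Hg (Ideal.ofList l) := by
  induction l with
  | nil =>
    rw [Ideal.ofList_nil]
    exact HGA.hg_bot
  | cons f l ih =>
    rw [← List.singleton_append, Ideal.ofList_append, Ideal.ofList_singleton]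
    obtain ⟨d, hd⟩ := h f List.mem_cons_self
    exact HGA.hg_sup (HGA.hg_span hd) (ih fun g hg => h g (List.mem_cons_of_mem _ hg))

/-- FIN. -/
theorem t_fin (hGRO : GROStmt) : FINStmt' := by
  intro K _ n r I f a hI hmono ha hfa hfI hreg m k q hk hq
  obtain ⟨a', ha', hmono', ha'0⟩ : ∃ a' : ℕ → ℕ, (∀ i : Fin r, a' i = a i) ∧ Monotone a' ∧
      1 ≤ a' 0 := by
    rcases Nat.eq_zero_or_pos r with hr | hr
    · subst hr
      exact ⟨fun _ => 1, fun i => i.elim0, monotone_const, le_rfl⟩
    · refine ⟨fun i => a ⟨min i (r - 1), by omega⟩, fun i => ?_, fun i j hij => ?_, ha _⟩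
      · have h1 : min (i : ℕ) (r - 1) = i := by have := i.isLt; omega
        exact congrArg a (Fin.ext h1)
      · exact hmono (Fin.le_def.2 (by simp only; omega))
  have hfun : a = fun i : Fin r => a' i := funext fun i => (ha' i).symm
  subst hfun
  have hlist : (List.ofFn fun i : Fin r => a' i).reverse = dl a' r := ofFn_reverse a' r
  set F := AlgebraicClosure K
  set φ := MvPolynomial.map (σ := Fin n) (algebraMap K F) with hφ
  have hQg : Hg (Ideal.ofList (List.ofFn f)) := hg_ofList fun p hp => by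
    rw [List.mem_ofFn] at hp
    obtain ⟨i, rfl⟩ := hp
    exact ⟨a' i, hfa i⟩
  have hQI : Ideal.ofList (List.ofFn f) ≤ I := by
    unfold Ideal.ofList
    rw [Ideal.span_le]
    intro p hp
    obtain ⟨i, rfl⟩ := List.mem_ofFn.1 hp
    exact hfI i
  have h'' : List.Forall₂ (fun (d : PR F n) (e : ℕ) => 1 ≤ e ∧ d.IsHomogeneous e)
      ((List.ofFn f).map φ) (List.ofFn fun i : Fin r => a' i) := by
    rw [List.forall₂_map_left_iff, List.forall₂_iff_get]
    refine ⟨by simp, fun i h1 h2 => ?_⟩
    simp only [List.get_eq_getElem, List.getElem_ofFn]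
    exact ⟨ha ⟨i, by simpa using h2⟩, MvPolynomial.IsHomogeneous.map (hfa _) _⟩
  have hM := t_rgm F n ((List.ofFn f).map φ) (List.ofFn fun i : Fin r => a' i) h''
    (Pool.EGH.Bac.wr_map F hreg)
  rw [hlist] at hM
  set Q : Ideal (PR F n) := Ideal.ofList ((List.ofFn f).map φ) with hQ
  have hQm : Q = (Ideal.ofList (List.ofFn f)).map φ := (Ideal.map_ofList φ _).symm
  set I' : Ideal (PR F n) := I.map φ with hI'
  have hQI' : Q ≤ I' := by
    rw [hQm]
    exact Ideal.map_mono hQI
  have hhI : ∀ d, hf I' d = hf I d := fun d => Pool.EGH.Bac.hf_map F hI d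
  have hhQ : ∀ d, hf Q d = hf (Ideal.ofList (List.ofFn f)) d := fun d => by
    rw [hQm]
    exact Pool.EGH.Bac.hf_map F hQg d
  have h1 := im_dim hQI' m
  have h2 := im_dim hQI' (m + 1)
  rw [hhI, hhQ] at h1 h2
  obtain ⟨V, hV, hVk⟩ := sub_dim (im Q I' m) (k := k) (by omega)
  have hVg : V ≤ gp Q m := hV.trans (Submodule.map_mono inf_le_right)
  have h3 := hGRO F n a' hmono' ha'0 r Q hM m k q V hVg hVk (by
    intro i hi
    rcases hq i hi with h | h
    · exact Or.inl h
    · by_cases hr : r ≤ q i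
      · exact Or.inl hr
      · right
        refine lt_of_lt_of_eq h ?_
        unfold so
        rw [← Finset.sum_range fun t => if t < q i + 1 then a' t - 1 else 0,
          ← Finset.sum_filter]
        apply Finset.sum_congr _ fun _ _ => rfl
        ext t
        simp only [Finset.mem_filter, Finset.mem_range]
        omega)
  have h4 : dg Q V ≤ Module.finrank F ↥(im Q I' (m + 1)) := by
    unfold dg
    have hfin := gp_fin Q (m + 1)
    have h5 : im Q I' (m + 1) ≤ gp Q (m + 1) := Submodule.map_mono inf_le_right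
    have h6 : Module.Finite F ↥(im Q I' (m + 1)) := Submodule.finiteDimensional_of_le h5
    apply Submodule.finrank_mono
    rw [Submodule.mul_le]
    rintro x ⟨x', hx', rfl⟩ y hy
    obtain ⟨y', ⟨hy1, hy2⟩, rfl⟩ := hV hy
    refine ⟨x' * y', ⟨I'.mul_mem_left _ hy1, ?_⟩, map_mul (Ideal.Quotient.mk Q) _ _⟩
    rw [add_comm]
    exact IsHomogeneous.mul hx' hy2
  omega

end Pool.KZ
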